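import Pool.Agent.H81.LE.Targets

/-! Module EL of le_modules (MP_60ff71_an): elements of Monod's groups. -/

set_option autoImplicit false

open scoped MatrixGroups
open Pool.Agent.H81.LE

namespace Pool.Agent.H87.LE

section
variable (al be e P : ℝ)

/-- the Moebius transformation -/
noncomputable def mob (x : ℝ) : ℝ := (al * x + be) / (e * x + al)

/-- the Moebius transformation between the fixed points, the identity outside -/
noncomputable def mf (x : ℝ) : ℝ := if |x| ≤ P then mob al be e x else x

/-- the inverse -/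
noncomputable def mg (x : ℝ) : ℝ := -mf al be e P (-x)

variable (hdet : al ^ 2 - be * e = 1) (hfix : e * P ^ 2 = be) (hP : 0 < P) (he : 0 < e)
  (hden : e * P < al)

include he hden in
theorem den_pos {x : ℝ} (hx : -P ≤ x) : 0 < e * x + al := by
  have : e * (-P) ≤ e * x := mul_le_mul_of_nonneg_left hx he.le
  linarith

include hdet he hden in
theorem mob_sub {x y : ℝ} (hx : -P ≤ x) (hy : -P ≤ y) :
    mob al be e y - mob al be e x = (y - x) / ((e * y + al) * (e * x + al)) := by
  have h1 := den_pos al e P he hden hx
  have h2 := den_pos al e P he hden hy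
  unfold mob
  rw [div_sub_div _ _ h2.ne' h1.ne']
  congr 1
  linear_combination (y - x) * hdet

include hdet he hden in
theorem mob_lt {x y : ℝ} (hx : -P ≤ x) (hxy : x < y) : mob al be e x < mob al be e y := by
  have h := mob_sub al be e P hdet he hden hx (hx.trans hxy.le)
  have h1 := den_pos al e P he hden hx
  have h2 := den_pos al e P he hden (hx.trans hxy.le)
  have h3 : 0 < (y - x) / ((e * y + al) * (e * x + al)) :=
    div_pos (by linarith) (mul_pos h2 h1)
  linarith

include hdet he hden in
theorem mob_le {x y : ℝ} (hx : -P ≤ x) (hxy : x ≤ y) : mob al be e x ≤ mob al be e y := by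
  rcases eq_or_lt_of_le hxy with rfl | h
  · exact le_rfl
  · exact (mob_lt al be e P hdet he hden hx h).le

include hfix hP he hden in
theorem mob_P : mob al be e P = P := by
  have h := den_pos al e P he hden (by linarith : -P ≤ P)
  unfold mob
  rw [div_eq_iff h.ne']
  linear_combination -hfix

include hfix he hden in
theorem mob_nP : mob al be e (-P) = -P := by
  have h := den_pos al e P he hden (le_refl (-P))
  unfold mob
  rw [div_eq_iff h.ne']
  linear_combination -hfix

include hdet hfix hP he hden in
theorem mob_mem {x : ℝ} (hx : |x| ≤ P) : |mob al be e x| ≤ P := by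
  rw [abs_le] at hx ⊢
  constructor
  · have := mob_le al be e P hdet he hden (le_refl (-P)) hx.1
    rwa [mob_nP al be e P hfix he hden] at this
  · have := mob_le al be e P hdet he hden hx.1 hx.2
    rwa [mob_P al be e P hfix hP he hden] at this

include hdet hfix hP he hden in
theorem mf_strictMono : StrictMono (mf al be e P) := by
  intro x y hxy
  unfold mf
  split_ifs with h1 h2 h2
  · exact mob_lt al be e P hdet he hden (abs_le.1 h1).1 hxy
  · have h3 := mob_mem al be e P hdet hfix hP he hden h1
    have h4 : P < y := by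
      by_contra h5
      push Not at h5
      exact h2 (abs_le.2 ⟨by linarith [(abs_le.1 h1).1], h5⟩)
    linarith [(abs_le.1 h3).2]
  · have h3 := mob_mem al be e P hdet hfix hP he hden h2
    have h4 : x < -P := by
      by_contra h5
      push Not at h5
      exact h1 (abs_le.2 ⟨h5, by linarith [(abs_le.1 h2).2]⟩)
    linarith [(abs_le.1 h3).1]
  · exact hxy

include hdet hfix hP he hden in
theorem mf_mg (x : ℝ) : mf al be e P (mg al be e P x) = x := by
  unfold mg
  by_cases h : |x| ≤ P
  · have h' : |-x| ≤ P := by rwa [abs_neg]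
    have h1 : mf al be e P (-x) = mob al be e (-x) := if_pos h'
    have h2 := mob_mem al be e P hdet hfix hP he hden h'
    have h3 : |-mob al be e (-x)| ≤ P := by rwa [abs_neg]
    rw [h1]
    have h4 : mf al be e P (-mob al be e (-x)) = mob al be e (-mob al be e (-x)) := if_pos h3
    rw [h4]
    have h5 := den_pos al e P he hden (abs_le.1 h').1
    have h6 := den_pos al e P he hden (abs_le.1 h3).1
    have h7 : mob al be e (-x) * (e * (-x) + al) = al * (-x) + be := by
      unfold mob
      exact div_mul_cancel₀ _ h5.ne'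
    show (al * (-mob al be e (-x)) + be) / (e * (-mob al be e (-x)) + al) = x
    rw [div_eq_iff h6.ne']
    have h8 : (al * (-mob al be e (-x)) + be) * (e * (-x) + al) =
        x * (e * (-mob al be e (-x)) + al) * (e * (-x) + al) := by
      linear_combination (-al + x * e) * h7
    have h9 := mul_right_cancel₀ h5.ne' h8
    exact h9
  · have h' : ¬ |-x| ≤ P := by rwa [abs_neg]
    have h1 : mf al be e P (-x) = -x := if_neg h'
    rw [h1, neg_neg]
    exact if_neg h

end

theorem el : T_EL := by
  intro A e heA he s hs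
  have hs1 : (1 : ℝ) ≤ s := by exact_mod_cast hs
  set al : ℝ := 1 + s * e ^ 2 with hal
  set be : ℝ := 2 * s * e + s ^ 2 * e ^ 3 with hbe
  set P : ℝ := Real.sqrt (2 * s + s ^ 2 * e ^ 2) with hPdef
  have hq : (1 : ℝ) < 2 * s + s ^ 2 * e ^ 2 := by
    have : 0 ≤ (s : ℝ) ^ 2 * e ^ 2 := by positivity
    linarith
  have hP1 : 1 < P := by
    rw [hPdef, Real.lt_sqrt (by norm_num)]
    linarith
  have hP : 0 < P := by linarith
  have hPsq : P ^ 2 = 2 * s + s ^ 2 * e ^ 2 := Real.sq_sqrt (by linarith)
  have hdet : al ^ 2 - be * e = 1 := by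
    rw [hal, hbe]
    ring
  have hfix : e * P ^ 2 = be := by
    rw [hPsq, hbe]
    ring
  have hal0 : 1 < al := by
    have : 0 < (s : ℝ) * e ^ 2 := by positivity
    linarith
  have hden : e * P < al := by
    have h1 : (e * P) ^ 2 < al ^ 2 := by
      have : (e * P) ^ 2 = al ^ 2 - 1 := by
        linear_combination e * hfix + hdet
      linarith
    exact lt_of_pow_lt_pow_left₀ 2 (by linarith) h1
  set f : ℝ ≃o ℝ := StrictMono.orderIsoOfRightInverse (mf al be e P)
    (mf_strictMono al be e P hdet hfix hP he hden) (mg al be e P)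
    (mf_mg al be e P hdet hfix hP he hden) with hf
  have hfx : ∀ x, f x = mf al be e P x := fun x => rfl
  have halA : al ∈ A := A.add_mem A.one_mem (A.mul_mem (natCast_mem A s) (A.pow_mem heA 2))
  have hbeA : be ∈ A := by
    refine A.add_mem (A.mul_mem (A.mul_mem ?_ (natCast_mem A s)) heA)
      (A.mul_mem (A.pow_mem (natCast_mem A s) 2) (A.pow_mem heA 3))
    exact_mod_cast natCast_mem A 2
  have hPA : ∀ x : ℝ, x ^ 2 = P ^ 2 → x ∈ PA A := by
    intro x hx
    refine ⟨al, be, e, al, halA, hbeA, heA, halA, by linear_combination hdet, ?_, ?_⟩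
    · rw [abs_of_pos (by linarith)]
      linarith
    · rw [hx]
      linear_combination hfix
  refine ⟨f, ⟨{P, -P}, ?_, ⟨P, ?_⟩, ?_⟩, ?_⟩
  · intro x hx
    rw [Finset.mem_insert, Finset.mem_singleton] at hx
    rcases hx with rfl | rfl
    · exact hPA _ rfl
    · exact hPA _ (by ring)
  · intro x hx
    rw [hfx]
    exact if_neg (not_le.2 hx)
  · intro x hx
    rw [Finset.mem_insert, Finset.mem_singleton, not_or] at hx
    have hne : |x| ≠ P := by
      intro h
      rcases (abs_eq hP.le).1 h with h1 | h1
      · exact hx.1 h1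
      · exact hx.2 h1
    rcases lt_or_gt_of_ne hne with h | h
    · refine ⟨al, be, e, al, halA, hbeA, heA, halA, by linear_combination hdet, ?_⟩
      have h1 : ∀ᶠ y in nhds x, |y| < P :=
        (continuous_abs.tendsto x).eventually (gt_mem_nhds h)
      filter_upwards [h1] with y hy
      refine ⟨(den_pos al e P he hden (abs_le.1 hy.le).1).ne', ?_⟩
      rw [hfx]
      exact if_pos hy.le
    · refine ⟨1, 0, 0, 1, A.one_mem, A.zero_mem, A.zero_mem, A.one_mem, by norm_num, ?_⟩
      have h1 : ∀ᶠ y in nhds x, P < |y| :=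
        (continuous_abs.tendsto x).eventually (lt_mem_nhds h)
      filter_upwards [h1] with y hy
      refine ⟨by norm_num, ?_⟩
      rw [hfx]
      have : mf al be e P y = y := if_neg (not_le.2 hy)
      rw [this]
      simp
  · intro x hx
    have hx' : |x| ≤ P := by
      rw [abs_of_nonneg hx.1]
      linarith [hx.2]
    have hW00 : (W s e : SL(2, ℝ)) 0 0 = al := rfl
    have hW01 : (W s e : SL(2, ℝ)) 0 1 = be := rfl
    have hW10 : (W s e : SL(2, ℝ)) 1 0 = e := rfl
    have hW11 : (W s e : SL(2, ℝ)) 1 1 = al := rfl
    unfold EqMob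
    rw [hW00, hW01, hW10, hW11]
    refine ⟨(den_pos al e P he hden (abs_le.1 hx').1).ne', ?_⟩
    rw [hfx]
    exact if_pos hx'

end Pool.Agent.H87.LE
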