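import Pool.Agent.H81.LE.Targets

/-! Module PL of le_modules (MP_60ff71_an): a place at which `c` is large. -/

set_option autoImplicit false

open Polynomial NumberField
open Pool.Agent.H81.LE
open scoped IntermediateField

namespace Pool.Agent.H87.LE

open scoped Classical in
/-- if the product of the values is one and one value is less than one, then some value is greater
than one -/
theorem exists_place {K : Type} [Field K] [NumberField K] (x : K) (hx : x ≠ 0)
    (w₀ : InfinitePlace K) (h : w₀ x < 1) :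
    ∃ v : AbsoluteValue K ℝ, 1 < v x := by
  by_contra hcon
  push Not at hcon
  have hI : ∀ w : InfinitePlace K, w x ≤ 1 := fun w => hcon w.1
  have hF : ∀ w : FinitePlace K, w x ≤ 1 := fun w => hcon w.1
  have h1 := NumberField.prod_abs_eq_one hx
  have h2 : ∏ᶠ w : FinitePlace K, w x ≤ 1 := by
    by_cases hfin : (Function.mulSupport fun w : FinitePlace K => w x).Finite
    · rw [finprod_eq_prod _ hfin]
      exact Finset.prod_le_one (fun w _ => w.1.nonneg x) (fun w _ => hF w)
    · rw [finprod_of_infinite_mulSupport hfin]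
  have h3 : ∏ w : InfinitePlace K, w x ^ w.mult < 1 := by
    have h4 : ∏ w : InfinitePlace K, w x ^ w.mult ≤ w₀ x ^ w₀.mult := by
      rw [← Finset.mul_prod_erase Finset.univ _ (Finset.mem_univ w₀)]
      refine mul_le_of_le_one_right (pow_nonneg (w₀.1.nonneg x) _) ?_
      exact Finset.prod_le_one (fun w _ => pow_nonneg (w.1.nonneg x) _)
        (fun w _ => pow_le_one₀ (w.1.nonneg x) (hI w))
    have h5 : w₀ x ^ w₀.mult < 1 := pow_lt_one₀ (w₀.1.nonneg x) h w₀.mult_pos.ne'
    exact h4.trans_lt h5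
  have h6 : (0 : ℝ) ≤ ∏ w : InfinitePlace K, w x ^ w.mult :=
    Finset.prod_nonneg fun w _ => pow_nonneg (w.1.nonneg x) _
  have h7 : (∏ w : InfinitePlace K, w x ^ w.mult) * ∏ᶠ w : FinitePlace K, w x ≤
      (∏ w : InfinitePlace K, w x ^ w.mult) * 1 := mul_le_mul_of_nonneg_left h2 h6
  rw [h1, mul_one] at h7
  linarith

theorem pl : T_PL := by
  intro c hc0 hc1
  by_cases halg : IsAlgebraic ℚ c
  · -- algebraic case
    have hint : IsIntegral ℚ c := halg.isIntegral
    have hfd : FiniteDimensional ℚ ℚ⟮c⟯ := IntermediateField.adjoin.finiteDimensional hint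
    have hnf : NumberField ℚ⟮c⟯ := { to_charZero := inferInstance, to_finiteDimensional := hfd }
    set x : ℚ⟮c⟯ := IntermediateField.AdjoinSimple.gen ℚ c with hx
    have hxc : ((x : ℚ⟮c⟯) : ℝ) = c := IntermediateField.AdjoinSimple.coe_gen ℚ c
    have hx0 : x ≠ 0 := by
      intro h
      rw [h] at hxc
      have : (0 : ℝ) = c := hxc
      linarith
    set φ : ℚ⟮c⟯ →+* ℂ := Complex.ofRealHom.comp (algebraMap ℚ⟮c⟯ ℝ) with hφ
    have hw : InfinitePlace.mk φ x < 1 := by
      rw [InfinitePlace.apply]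
      have : φ x = (c : ℂ) := by
        rw [hφ]
        show ((algebraMap ℚ⟮c⟯ ℝ x : ℝ) : ℂ) = (c : ℂ)
        congr 1
      rw [this, Complex.norm_real, Real.norm_of_nonneg hc0.le]
      exact hc1
    obtain ⟨v, hv⟩ := exists_place x hx0 (InfinitePlace.mk φ) hw
    have hle : ∀ y ∈ Algebra.adjoin ℤ {c}, y ∈ ℚ⟮c⟯ := by
      have : Algebra.adjoin ℤ {c} ≤ (ℚ⟮c⟯.toSubalgebra).restrictScalars ℤ :=
        Algebra.adjoin_le (Set.singleton_subset_iff.2 (IntermediateField.mem_adjoin_simple_self ℚ c))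
      exact fun y hy => this hy
    refine ⟨ℚ⟮c⟯, inferInstance, v,
      ((Algebra.adjoin ℤ {c}).val.toRingHom).codRestrict ℚ⟮c⟯.toSubalgebra (fun y => hle _ y.2),
      inferInstance, ?_⟩
    exact hv
  · -- transcendental case
    have htr : Transcendental ℤ c := by
      intro h
      exact halg ((IsFractionRing.isAlgebraic_iff ℤ ℚ ℝ).1 h)
    have hinj : Function.Injective (aeval (R := ℤ) c) := transcendental_iff_injective.1 htr
    have hrange : Algebra.adjoin ℤ {c} = (aeval (R := ℤ) c).range :=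
      Algebra.adjoin_singleton_eq_range_aeval ℤ c
    set E : ℤ[X] ≃ₐ[ℤ] (aeval (R := ℤ) c).range := AlgEquiv.ofInjective (aeval (R := ℤ) c) hinj
    set E2 : Algebra.adjoin ℤ {c} ≃ₐ[ℤ] (aeval (R := ℤ) c).range := Subalgebra.equivOfEq _ _ hrange
    refine ⟨ℝ, inferInstance, AbsoluteValue.abs,
      ((aeval (R := ℤ) (2 : ℝ)).toRingHom).comp ((E2.trans E.symm).toAlgHom.toRingHom),
      inferInstance, ?_⟩
    have h1 : (E2.trans E.symm) ⟨c, Algebra.subset_adjoin (Set.mem_singleton c)⟩ = X := by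
      rw [AlgEquiv.trans_apply, AlgEquiv.symm_apply_eq]
      refine Subtype.ext ?_
      show c = (aeval (R := ℤ) c) X
      rw [aeval_X]
    show 1 < |(aeval (R := ℤ) (2 : ℝ)) ((E2.trans E.symm) ⟨c, _⟩)|
    rw [h1, aeval_X]
    norm_num

end Pool.Agent.H87.LE
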