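import Pool.Agent.H81.LE.Targets

/-! Module PP of le_modules (MP_60ff71_an): ping-pong over a field with an absolute value. -/

set_option autoImplicit false

open scoped MatrixGroups
open Pool.Agent.H81.LE

namespace Pool.Agent.H87.LE

section
variable {K : Type} [Field K]

/-- the action on pairs -/
def act (g : SL(2, K)) (p : K × K) : K × K :=
  (g 0 0 * p.1 + g 0 1 * p.2, g 1 0 * p.1 + g 1 1 * p.2)

theorem act_one (p : K × K) : act 1 p = p := by
  unfold act
  ext <;> simp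

theorem act_mul (g h : SL(2, K)) (p : K × K) : act (g * h) p = act g (act h p) := by
  unfold act
  ext <;> simp [Matrix.mul_apply, Fin.sum_univ_two] <;> ring

theorem act_zero (g : SL(2, K)) : act g 0 = 0 := by
  unfold act
  ext <;> simp

theorem act_ne (g : SL(2, K)) {p : K × K} (hp : p ≠ 0) : act g p ≠ 0 := by
  intro h
  have h1 := act_mul g⁻¹ g p
  rw [inv_mul_cancel, act_one, h, act_zero] at h1
  exact hp h1

/-- nonzero pairs -/
def NV (K : Type) [Field K] : Type := {p : K × K // p ≠ 0}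

instance : MulAction SL(2, K) (NV K) where
  smul g p := ⟨act g p.1, act_ne g p.2⟩
  one_smul p := Subtype.ext (act_one p.1)
  mul_smul g h p := Subtype.ext (act_mul g h p.1)

theorem smul_val (g : SL(2, K)) (p : NV K) : (g • p).1 = act g p.1 := rfl

variable (v : AbsoluteValue K ℝ) (e : K)

/-- ping-pong sets: the pairs `(x, y)` with `|x / y - c| ≤ 1 / |e|` -/
def PX (c : K) : Set (NV K) := {p | v (p.1.1 - c * p.1.2) * v e ≤ v p.1.2}

theorem snd_ne {c : K} {p : NV K} (he : 0 < v e) (hp : p ∈ PX v e c) : 0 < v p.1.2 := by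
  rcases eq_or_lt_of_le (v.nonneg p.1.2) with h | h
  · exfalso
    have h1 : v (p.1.1 - c * p.1.2) * v e ≤ v p.1.2 := hp
    rw [← h] at h1
    have h2 : v (p.1.1 - c * p.1.2) = 0 := by
      have h3 := v.nonneg (p.1.1 - c * p.1.2)
      rcases eq_or_lt_of_le h3 with h4 | h4
      · exact h4.symm
      · have := mul_pos h4 he
        linarith
    have h5 : p.1.2 = 0 := v.eq_zero.1 h.symm
    have h6 := v.eq_zero.1 h2
    rw [h5, mul_zero, sub_zero] at h6
    exact p.2 (Prod.ext h6 h5)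
  · exact h

theorem PX_disjoint {c c' : K} (he : 0 < v e) (h : 2 < v (c - c') * v e) :
    Disjoint (PX v e c) (PX v e c') := by
  rw [Set.disjoint_left]
  intro p hp hp'
  have h0 := snd_ne v e he hp
  have h1 : v (p.1.1 - c * p.1.2) * v e ≤ v p.1.2 := hp
  have h2 : v (p.1.1 - c' * p.1.2) * v e ≤ v p.1.2 := hp'
  have h3 : v ((c - c') * p.1.2) ≤ v (p.1.1 - c' * p.1.2) + v (p.1.1 - c * p.1.2) := by
    have e1 : (c - c') * p.1.2 = (p.1.1 - c' * p.1.2) - (p.1.1 - c * p.1.2) := by ring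
    rw [e1]
    exact v.sub_le_add _ _ 
  rw [v.map_mul] at h3
  have h4 : v (c - c') * v p.1.2 * v e ≤
      (v (p.1.1 - c' * p.1.2) + v (p.1.1 - c * p.1.2)) * v e :=
    mul_le_mul_of_nonneg_right h3 he.le
  have h5 : 2 * v p.1.2 < v (c - c') * v e * v p.1.2 := mul_lt_mul_of_pos_right h h0
  have h6 : v (c - c') * v p.1.2 * v e = v (c - c') * v e * v p.1.2 := by ring
  rw [h6] at h4
  linarith

theorem PX_nonempty (c : K) : (PX v e c).Nonempty := by
  refine ⟨⟨(c, 1), fun h => one_ne_zero (congrArg Prod.snd h)⟩, ?_⟩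
  show v (c - c * 1) * v e ≤ v 1
  rw [mul_one, sub_self, v.map_zero, zero_mul]
  exact v.nonneg _

theorem W_maps (s : ℕ) (he : 0 < v e) (p : NV K)
    (hp : p ∉ PX v e (-(s * e + e⁻¹))) : W s e • p ∈ PX v e (s * e + e⁻¹) := by
  have he0 : e ≠ 0 := fun h => by
    rw [h, v.map_zero] at he
    exact lt_irrefl _ he
  have h1 : ¬ v (p.1.1 - -(s * e + e⁻¹) * p.1.2) * v e ≤ v p.1.2 := hp
  push Not at h1
  have e1 : (W s e • p).1.2 = e * (p.1.1 - -(s * e + e⁻¹) * p.1.2) := by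
    rw [smul_val]
    show e * p.1.1 + (1 + s * e ^ 2) * p.1.2 = e * (p.1.1 - -(s * e + e⁻¹) * p.1.2)
    field_simp
    ring
  have e2 : (W s e • p).1.1 - (s * e + e⁻¹) * (W s e • p).1.2 = -(e⁻¹ * p.1.2) := by
    rw [e1, smul_val]
    show (1 + s * e ^ 2) * p.1.1 + (2 * s * e + s ^ 2 * e ^ 3) * p.1.2 -
      (s * e + e⁻¹) * (e * (p.1.1 - -(s * e + e⁻¹) * p.1.2)) = -(e⁻¹ * p.1.2)
    field_simp
    ring
  show v ((W s e • p).1.1 - (s * e + e⁻¹) * (W s e • p).1.2) * v e ≤ v (W s e • p).1.2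
  rw [e2, e1, v.map_neg, v.map_mul, v.map_mul, map_inv₀]
  have e3 : (v e)⁻¹ * v p.1.2 * v e = v p.1.2 := by
    field_simp
  rw [e3, mul_comm (v e)]
  exact h1.le

theorem W_inv_maps (s : ℕ) (he : 0 < v e) (p : NV K)
    (hp : p ∉ PX v e (s * e + e⁻¹)) : (W s e)⁻¹ • p ∈ PX v e (-(s * e + e⁻¹)) := by
  have he0 : e ≠ 0 := fun h => by
    rw [h, v.map_zero] at he
    exact lt_irrefl _ he
  have h1 : ¬ v (p.1.1 - (s * e + e⁻¹) * p.1.2) * v e ≤ v p.1.2 := hp
  push Not at h1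
  have hval : ((W s e)⁻¹ • p).1 = ((1 + s * e ^ 2) * p.1.1 + -(2 * s * e + s ^ 2 * e ^ 3) * p.1.2,
      -e * p.1.1 + (1 + s * e ^ 2) * p.1.2) := by
    rw [smul_val]
    unfold act
    rw [Matrix.SpecialLinearGroup.SL2_inv_expl]
    rfl
  have e1 : ((W s e)⁻¹ • p).1.2 = -(e * (p.1.1 - (s * e + e⁻¹) * p.1.2)) := by
    rw [hval]
    show -e * p.1.1 + (1 + s * e ^ 2) * p.1.2 = -(e * (p.1.1 - (s * e + e⁻¹) * p.1.2))
    field_simp
    ring
  have e2 : ((W s e)⁻¹ • p).1.1 - -(s * e + e⁻¹) * ((W s e)⁻¹ • p).1.2 = e⁻¹ * p.1.2 := by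
    rw [e1, hval]
    show (1 + s * e ^ 2) * p.1.1 + -(2 * s * e + s ^ 2 * e ^ 3) * p.1.2 -
      -(s * e + e⁻¹) * -(e * (p.1.1 - (s * e + e⁻¹) * p.1.2)) = e⁻¹ * p.1.2
    field_simp
    ring
  show v (((W s e)⁻¹ • p).1.1 - -(s * e + e⁻¹) * ((W s e)⁻¹ • p).1.2) * v e ≤
    v ((W s e)⁻¹ • p).1.2
  rw [e2, e1, v.map_neg, v.map_mul, v.map_mul, map_inv₀]
  have e3 : (v e)⁻¹ * v p.1.2 * v e = v p.1.2 := by
    field_simp
  rw [e3, mul_comm (v e)]
  exact h1.le

theorem pp_aux (N : ℕ) (hN : 2 ≤ N)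
    (h : ∀ k : ℕ, 1 ≤ k → k ≤ 2 * N → 4 < v e ^ 2 * v (k : K)) :
    Function.Injective (FreeGroup.lift fun i : Fin N => W ((i : ℕ) + 1) e) := by
  have he : 0 < v e := by
    have h1 := h 1 le_rfl (by omega)
    rcases eq_or_lt_of_le (v.nonneg e) with h2 | h2
    · rw [← h2] at h1
      norm_num at h1
    · exact h2
  have he0 : e ≠ 0 := fun h => by
    rw [h, v.map_zero] at he
    exact lt_irrefl _ he
  have : Nontrivial (Fin N) := Fin.nontrivial_iff_two_le.2 hN
  set c : Fin N → K := fun i => ((i : ℕ) + 1 : ℕ) * e + e⁻¹ with hc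
  -- the differences of centres
  have hdiff : ∀ i j : Fin N, (i : ℕ) < j → 2 < v (c i - c j) * v e := by
    intro i j hij
    have e1 : c i - c j = -(((j : ℕ) - (i : ℕ) : ℕ) * e) := by
      simp only [hc]
      rw [Nat.cast_sub hij.le]
      push_cast
      ring
    have h1 := h ((j : ℕ) - (i : ℕ)) (by omega) (by have := j.2; omega)
    rw [e1, v.map_neg, v.map_mul]
    nlinarith [h1]
  have hdiff' : ∀ i j : Fin N, i ≠ j → 2 < v (c i - c j) * v e := by
    intro i j hij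
    rcases lt_trichotomy (i : ℕ) (j : ℕ) with h1 | h1 | h1
    · exact hdiff i j h1
    · exact absurd (Fin.ext h1) hij
    · rw [v.map_sub]
      exact hdiff j i h1
  have hsum : ∀ i j : Fin N, 2 < v (c i - -c j) * v e := by
    intro i j
    have e1 : c i - -c j = ((i : ℕ) + (j : ℕ) + 2 : ℕ) * e + (2 : K) * e⁻¹ := by
      simp only [hc]
      push_cast
      ring
    have h1 := h ((i : ℕ) + (j : ℕ) + 2) (by omega) (by have := i.2; have := j.2; omega)
    have h2 : v (((i : ℕ) + (j : ℕ) + 2 : ℕ) * e) ≤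
        v (c i - -c j) + v ((2 : K) * e⁻¹) := by
      have e2 : (((i : ℕ) + (j : ℕ) + 2 : ℕ) : K) * e = (c i - -c j) - (2 : K) * e⁻¹ := by
        rw [e1]
        ring
      rw [e2]
      exact v.sub_le_add _ _
    have h3 : v (2 : K) ≤ 2 := by
      have : v ((1 : K) + 1) ≤ v 1 + v 1 := v.add_le _ _
      rw [v.map_one] at this
      have e3 : (2 : K) = 1 + 1 := by norm_num
      rw [e3]
      linarith
    rw [v.map_mul, v.map_mul, map_inv₀] at h2
    have h4 : v (((i : ℕ) + (j : ℕ) + 2 : ℕ) : K) * v e * v e ≤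
        (v (c i - -c j) + v (2 : K) * (v e)⁻¹) * v e := mul_le_mul_of_nonneg_right h2 he.le
    have h5 : (v (c i - -c j) + v (2 : K) * (v e)⁻¹) * v e = v (c i - -c j) * v e + v (2 : K) := by
      field_simp
    rw [h5] at h4
    nlinarith [h1, h4, h3]
  refine FreeGroup.injective_lift_of_ping_pong (fun i : Fin N => W ((i : ℕ) + 1) e)
    (fun i => PX v e (c i)) (fun i => PX v e (-c i)) (fun i => PX_nonempty v e _) ?_ ?_ ?_ ?_ ?_
  · intro i j hij
    exact PX_disjoint v e he (hdiff' i j hij)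
  · intro i j hij
    refine PX_disjoint v e he ?_
    have e1 : -c i - -c j = c j - c i := by ring
    rw [e1]
    exact hdiff' j i hij.symm
  · intro i j
    exact PX_disjoint v e he (hsum i j)
  · intro i
    rintro _ ⟨p, hp, rfl⟩
    exact W_maps v e ((i : ℕ) + 1) he p hp
  · intro i
    rintro _ ⟨p, hp, rfl⟩
    exact W_inv_maps v e ((i : ℕ) + 1) he p hp

end

theorem pp : T_PP := by
  intro K _ v N e h
  have h1 := pp_aux v e (N + 2) (by omega) (fun k hk1 hk2 => h k hk1 (by omega))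
  have h2 : (FreeGroup.lift fun i : Fin N => (W ((i : ℕ) + 1) e : SL(2, K))) =
      (FreeGroup.lift fun i : Fin (N + 2) => (W ((i : ℕ) + 1) e : SL(2, K))).comp
        (FreeGroup.map (Fin.castAdd 2)) := by
    ext1 i
    simp
  rw [h2, MonoidHom.coe_comp]
  exact h1.comp (FreeGroup.map_injective (Fin.castAdd_injective N 2))

end Pool.Agent.H87.LE
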